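import Pool.Agent.X84.Fl.Ham

/-!
# Hamiltonian vector fields are limits of fields with finitely many attractors
-/

set_option autoImplicit false
set_option linter.unusedSectionVars false

open Filter Topology Set MeasureTheory Bundle
open scoped Manifold ContDiff

noncomputable section

namespace Pool.Agent.Results.MP_3a2b62_an.HamiltonianFields

universe u v

section flow

variable {P : Type v} [TopologicalSpace P]

/-- the `ω`-limit set of `p` -/
def OmegaLim (ψ : Flow ℝ P) (p : P) : Set P := omegaLimit atTop (fun t x => ψ t x) {p}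

/-- `Λ` is invariant under the flow -/
def Invariant (ψ : Flow ℝ P) (Λ : Set P) : Prop := ∀ t, ψ t '' Λ = Λ

/-- `Λ` contains a point whose forward orbit is dense in `Λ` -/
def Transitive (ψ : Flow ℝ P) (Λ : Set P) : Prop :=
  ∃ x ∈ Λ, Λ ⊆ closure ((fun t => ψ t x) '' Ici 0)

/-- `Λ` is an attractor: invariant, transitive, with a basin of positive measure -/
def Attractor [MeasurableSpace P] (μ : Measure P) (ψ : Flow ℝ P) (Λ : Set P) : Prop :=
  Invariant ψ Λ ∧ Transitive ψ Λ ∧ 0 < μ {p | OmegaLim ψ p ⊆ Λ}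

/-- finitely many attractors cover the space -/
def FiniteAttractors [MeasurableSpace P] (μ : Measure P) (ψ : Flow ℝ P) : Prop :=
  ∃ S : Set (Set P), S.Finite ∧ (∀ Λ ∈ S, Attractor μ ψ Λ) ∧
    μ (⋃ Λ ∈ S, {p | OmegaLim ψ p ⊆ Λ})ᶜ = 0

/-- `p` is a nonwandering point -/
def Nonwandering (ψ : Flow ℝ P) (p : P) : Prop :=
  ∀ U ∈ 𝓝 p, ∀ T : ℝ, ∃ t ≥ T, (ψ t '' U ∩ U).Nonempty

end flow

variable (E : Type u) [NormedAddCommGroup E] [NormedSpace ℝ E] [FiniteDimensional ℝ E]
  (P : Type v) [TopologicalSpace P] [ChartedSpace E P] [IsManifold 𝓘(ℝ, E) ∞ P]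

/-- vector fields on `P` -/
abbrev Field := (x : P) → TangentSpace 𝓘(ℝ, E) x

/-- the real vector space of `C^∞` vector fields on `P` -/
def SmoothFields [T2Space P] [CompactSpace P] : Submodule ℝ (Field E P) where
  carrier := {X | ContMDiff 𝓘(ℝ, E) 𝓘(ℝ, E).tangent ∞
    (fun x => (⟨x, X x⟩ : TangentBundle 𝓘(ℝ, E) P))}
  add_mem' hX hY := X84.Fl.SmF.add hX hY
  zero_mem' := X84.Fl.SmF.zero
  smul_mem' c _ hX := X84.Fl.SmF.smul hX c

/-- the real vector space of `C^∞` functions on `P` -/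
abbrev Fun := C^∞⟮𝓘(ℝ, E), P; 𝓘(ℝ, ℝ), ℝ⟯

variable {E P}

/-- `φ` is the flow of `X` -/
def IsFlowOf (X : Field E P) (φ : Flow ℝ P) : Prop :=
  ∀ x, IsMIntegralCurve (I := 𝓘(ℝ, E)) (fun t => φ t x) X

/-- The field `W` has a flow, it has finitely many zeros, every orbit converges to a zero, every
nonwandering point is a zero, and finitely many attractors cover `P`, for every measure on `P`. -/
def Good (W : Field E P) : Prop :=
  ∃ ψ : Flow ℝ P, IsFlowOf W ψ ∧ {x | W x = 0}.Finite ∧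
    (∀ p, ∃ z, W z = 0 ∧ Tendsto (fun s => ψ s p) atTop (𝓝 z)) ∧
    (∀ p, Nonwandering ψ p → W p = 0) ∧
    ∀ [MeasurableSpace P] (μ : Measure P), FiniteAttractors μ ψ

/-- `V` is a limit of good fields: there are finitely many `C^∞` fields `Y 0, …, Y (k - 1)` such that
for arbitrarily small coefficients `t j` the field `V + ∑ t j Y j` is good; and `V` is in the closure
of the set of good fields, for every topology for which the `C^∞` fields form a topological vector
space (for instance the `C^r` topology). -/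
def LimitOfGood [T2Space P] [CompactSpace P] (V : SmoothFields E P) : Prop :=
  (∃ (k : ℕ) (Y : Fin k → SmoothFields E P), ∀ δ : ℝ, 0 < δ → ∃ t : Fin k → ℝ,
    (∀ j, |t j| < δ) ∧ Good (V + ∑ j, t j • Y j : SmoothFields E P).1) ∧
  ∀ _ : TopologicalSpace (SmoothFields E P), ContinuousAdd (SmoothFields E P) →
    ContinuousSMul ℝ (SmoothFields E P) → V ∈ closure {W : SmoothFields E P | Good W.1}

/-- `B` is a `C^∞` field of bilinear forms on the tangent spaces -/
def SmoothForm (B : (x : P) → TangentSpace 𝓘(ℝ, E) x →L[ℝ] TangentSpace 𝓘(ℝ, E) x →L[ℝ] ℝ) :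
    Prop :=
  ∀ x, ∀ u v : Field E P,
    ContMDiffAt 𝓘(ℝ, E) 𝓘(ℝ, E).tangent ∞ (fun p => (⟨p, u p⟩ : TangentBundle 𝓘(ℝ, E) P)) x →
    ContMDiffAt 𝓘(ℝ, E) 𝓘(ℝ, E).tangent ∞ (fun p => (⟨p, v p⟩ : TangentBundle 𝓘(ℝ, E) P)) x →
    ContMDiffAt 𝓘(ℝ, E) 𝓘(ℝ, ℝ) ∞ (fun p => B p (u p) (v p)) x

/-- Let `P` be a closed manifold.

(1) Let `A` be a linear operator from `C^∞` functions to `C^∞` vector fields on `P` with
`df(A f) ≥ 0` for all `f` (for instance, `A f` is the Hamiltonian field of `f` for a symplectic form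
or a Poisson structure on `P`, or its gradient, or the sum of such fields). Then for each `C^∞`
function `h` the field `A h` is a limit of fields which have finitely many zeros, all orbits of
which converge to zeros, and for which finitely many attractors cover `P`.

(2) In particular this holds for each field `X` with `B(X, ·) = dh`, where `h` is a `C^∞` function
and `B` a `C^∞` field of nondegenerate bilinear forms with `B(v, v) ≥ 0` (for instance a symplectic
form: then `X` is the Hamiltonian field of `h`). -/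
theorem result [T2Space P] [CompactSpace P] :
    (∀ A : Fun E P →ₗ[ℝ] SmoothFields E P,
      (∀ (f : Fun E P) (x : P), (0 : ℝ) ≤ mfderiv 𝓘(ℝ, E) 𝓘(ℝ, ℝ) f x ((A f).1 x)) →
        ∀ h : Fun E P, LimitOfGood (A h)) ∧
    (∀ B : (x : P) → TangentSpace 𝓘(ℝ, E) x →L[ℝ] TangentSpace 𝓘(ℝ, E) x →L[ℝ] ℝ, SmoothForm B →
      (∀ x (v : TangentSpace 𝓘(ℝ, E) x), 0 ≤ B x v v) →
      (∀ x (u : TangentSpace 𝓘(ℝ, E) x), (∀ v, B x u v = 0) → u = 0) →
        ∀ (h : Fun E P) (X : Field E P),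
          (∀ x v, B x (X x) v = mfderiv 𝓘(ℝ, E) 𝓘(ℝ, ℝ) h x v) →
            ∃ hX : X ∈ SmoothFields E P, LimitOfGood ⟨X, hX⟩) := by
  have main : ∀ A : Fun E P →ₗ[ℝ] SmoothFields E P,
      (∀ (f : Fun E P) (x : P), (0 : ℝ) ≤ mfderiv 𝓘(ℝ, E) 𝓘(ℝ, ℝ) f x ((A f).1 x)) →
        ∀ h : Fun E P, LimitOfGood (A h) := by
    intro A hpos h
    obtain ⟨k, Y, hY, h1⟩ := X84.Fl.ham_family (A := (SmoothFields E P).subtype.comp A)
      (fun q => (A q).2) hpos h
    have hfirst : ∀ δ : ℝ, 0 < δ → ∃ t : Fin k → ℝ, (∀ j, |t j| < δ) ∧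
        Good (A h + ∑ j, t j • (⟨Y j, hY j⟩ : SmoothFields E P) : SmoothFields E P).1 := by
      intro δ hδ
      obtain ⟨t, ht, ψ, hψ, h2, h3, h4, h5⟩ := h1 δ hδ
      refine ⟨t, ht, ?_⟩
      have hval : (A h + ∑ j, t j • (⟨Y j, hY j⟩ : SmoothFields E P) : SmoothFields E P).1 =
          fun x => (A h).1 x + ∑ j, t j • Y j x := by
        funext x
        rw [Submodule.coe_add, Submodule.coe_sum]
        show (A h).1 x + (∑ j, t j • Y j) x = _
        rw [Finset.sum_apply]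
        rfl
      rw [hval]
      exact ⟨ψ, hψ, h2, h3, h4, fun μ => h5 μ⟩
    refine ⟨⟨k, _, hfirst⟩, ?_⟩
    intro τ hadd hsmul
    exact X84.Fl.closure_of_small (A h) (fun j => (⟨Y j, hY j⟩ : SmoothFields E P)) _ τ hadd
      hsmul hfirst
  refine ⟨main, ?_⟩
  intro B hB hnn hnd h X hX
  have h4 : X84.Fl.opB hnd h = X := by
    funext x
    apply X84.Fl.sharp_unique hnd
    intro v
    rw [X84.Fl.opB_spec, hX]
    rfl
  let A : Fun E P →ₗ[ℝ] SmoothFields E P := LinearMap.codRestrict (SmoothFields E P)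
    (X84.Fl.opB hnd) fun f => X84.Fl.opB_smooth hB hnd f
  have h1 := main A (fun f x => by
    have h2 := X84.Fl.opB_spec hnd f x (X84.Fl.opB hnd f x)
    have h3 := hnn x (X84.Fl.opB hnd f x)
    rw [h2] at h3
    exact h3) h
  refine ⟨h4 ▸ X84.Fl.opB_smooth hB hnd h, ?_⟩
  have h5 : A h = ⟨X, h4 ▸ X84.Fl.opB_smooth hB hnd h⟩ := Subtype.ext h4
  rw [← h5]
  exact h1

end Pool.Agent.Results.MP_3a2b62_an.HamiltonianFields
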