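import Pool.Agent.X84.Fm.Main

/-!
# Time maps of Hamiltonian fields are limits of diffeomorphisms with finitely many attractors

Definitions: `HamiltonianType`, `FormType` in `Pool/Agent/X84/Fm/Defs.lean`, `FiniteAttractors` in
`Pool/Agent/H728R2/FA/Defs.lean`, `IsHyperbolicPer` in `Pool/Agent/Y504/CO/Rob.lean`, the topology
of `Diff^r` in `Pool/Agent/H718R2/G0.lean`.
-/

set_option autoImplicit false

open scoped Manifold ContDiff Topology

universe u

namespace Pool.Agent.Results.MP_3a2b62_an.HamiltonianMaps

open Pool.Agent.H718R2.G Pool.Agent.TH80.OMS Pool.Agent.Y504.CO Pool.Agent.X84.Fm.Defs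
open MeasureTheory Filter Pool.Agent.H728R2.FA

variable {n : ℕ} {N : Type u} [TopologicalSpace N] [ChartedSpace (V n) N] {r : ℕ∞}

/-- Every neighbourhood of `F` in the `C^r` topology contains a diffeomorphism with the property
`S`. -/
def LimitOf [IsManifold (𝓡 n) ∞ N] (S : DiffM n N r → Prop) (F : DiffM n N r) : Prop :=
  ∀ U : Set (DiffM n N r), IsOpen[strongTop n N r] U → F ∈ U → ∃ G ∈ U, S G

/-- The nonwandering set of `G` is finite and consists of hyperbolic fixed points, all forward
orbits converge to fixed points, and `G` has finitely many attractors covering `N` up to a null set,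
for every measure on `N`. -/
def Good (G : DiffM n N r) : Prop :=
  (Omega G).Finite ∧ (∀ p ∈ Omega G, G p = p ∧ IsHyperbolicPer n G p) ∧
    (∀ x, ∃ p ∈ Omega G, Tendsto (fun k : ℕ => G^[k] x) atTop (𝓝 p)) ∧
    ∀ (_ : MeasurableSpace N) (μ : Measure N), FiniteAttractors μ G

/-- Let `N` be a closed manifold, `1 ≤ r ≤ ∞`, and let `F` be in the closure in `Diff^r(N)` of the
set of time maps of fields of Hamiltonian type (for instance `F` itself such a map). Then every
neighbourhood of `F` in the `C^r` topology contains `G` such that the nonwandering set of `G` is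
finite and consists of hyperbolic fixed points, all forward orbits of `G` converge to fixed points,
and `G` has finitely many attractors covering `N` up to a null set, for every measure on `N`. The
time maps of the fields `X` with `B(X, ·) = dh` are of this type, for every `C^∞` function `h` and
every `C^∞` field `B` of nondegenerate bilinear forms with `B(v, v) ≥ 0`, for instance a symplectic
form: then `X` is the Hamiltonian field of `h`. -/
theorem result (n : ℕ) (N : Type u) [TopologicalSpace N] [T2Space N] [CompactSpace N]
    [ChartedSpace (V n) N] [IsManifold (𝓡 n) ∞ N] (r : ℕ∞) (hr : 1 ≤ r) :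
    (∀ F : DiffM n N r, LimitOf (fun G => HamiltonianType (V n) N G) F → LimitOf Good F) ∧
    ∀ F : DiffM n N r, FormType (V n) N F → HamiltonianType (V n) N F := by
  refine ⟨fun F hF U hU hFU => ?_, fun F hF => X84.Fm.defs_of_ham (X84.Fm.form_of_defs hF).ham⟩
  obtain ⟨G, hGU, hG⟩ := hF U hU hFU
  exact X84.Fm.attractors hr (X84.Fm.ham_of_defs hG) U hU hGU

end Pool.Agent.Results.MP_3a2b62_an.HamiltonianMaps
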