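import Pool.Agent.X84.Fl.Mono

/-!
# Vector fields along which a function does not decrease
-/

set_option autoImplicit false
set_option linter.unusedSectionVars false

open Filter Topology Set MeasureTheory Bundle
open scoped Manifold ContDiff

noncomputable section

namespace Pool.Agent.Results.MP_3a2b62_an.MonotoneFields

universe u v

section flow

variable {P : Type v} [TopologicalSpace P]

/-- the `ω`-limit set of `p` -/
def OmegaLim (ψ : Flow ℝ P) (p : P) : Set P := omegaLimit atTop (fun t x => ψ t x) {p}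

/-- `Λ` is invariant under the flow -/
def Invariant (ψ : Flow ℝ P) (Λ : Set P) : Prop := ∀ t, ψ t '' Λ = Λ

/-- `Λ` contains a point whose forward orbit is dense in `Λ` -/
def Transitive (ψ : Flow ℝ P) (Λ : Set P) : Prop :=
  ∃ x ∈ Λ, Λ ⊆ closure ((fun t => ψ t x) '' Ici 0)

/-- `Λ` is an attractor: invariant, transitive, with a basin of positive measure -/
def Attractor [MeasurableSpace P] (μ : Measure P) (ψ : Flow ℝ P) (Λ : Set P) : Prop :=
  Invariant ψ Λ ∧ Transitive ψ Λ ∧ 0 < μ {p | OmegaLim ψ p ⊆ Λ}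

/-- finitely many attractors cover the space -/
def FiniteAttractors [MeasurableSpace P] (μ : Measure P) (ψ : Flow ℝ P) : Prop :=
  ∃ S : Set (Set P), S.Finite ∧ (∀ Λ ∈ S, Attractor μ ψ Λ) ∧
    μ (⋃ Λ ∈ S, {p | OmegaLim ψ p ⊆ Λ})ᶜ = 0

/-- `p` is a nonwandering point -/
def Nonwandering (ψ : Flow ℝ P) (p : P) : Prop :=
  ∀ U ∈ 𝓝 p, ∀ T : ℝ, ∃ t ≥ T, (ψ t '' U ∩ U).Nonempty

end flow

variable (E : Type u) [NormedAddCommGroup E] [NormedSpace ℝ E] [FiniteDimensional ℝ E]
  (P : Type v) [TopologicalSpace P] [ChartedSpace E P] [IsManifold 𝓘(ℝ, E) ∞ P]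

/-- vector fields on `P` -/
abbrev Field := (x : P) → TangentSpace 𝓘(ℝ, E) x

/-- the real vector space of `C^∞` vector fields on `P` -/
def SmoothFields [T2Space P] [CompactSpace P] : Submodule ℝ (Field E P) where
  carrier := {X | ContMDiff 𝓘(ℝ, E) 𝓘(ℝ, E).tangent ∞
    (fun x => (⟨x, X x⟩ : TangentBundle 𝓘(ℝ, E) P))}
  add_mem' hX hY := X84.Fl.SmF.add hX hY
  zero_mem' := X84.Fl.SmF.zero
  smul_mem' c _ hX := X84.Fl.SmF.smul hX c

variable {E P}

/-- `φ` is the flow of `X` -/
def IsFlowOf (X : Field E P) (φ : Flow ℝ P) : Prop :=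
  ∀ x, IsMIntegralCurve (I := 𝓘(ℝ, E)) (fun t => φ t x) X

/-- `x` is a critical point of `h` -/
def Critical (h : P → ℝ) (x : P) : Prop := mfderiv 𝓘(ℝ, E) 𝓘(ℝ, ℝ) h x = 0

/-- The field `W` has a flow, under which the sets `A i` are invariant and transitive, every
`ω`-limit set is contained in some `A i`, every nonwandering point lies in some `A i`, and finitely
many attractors cover `P`, for every measure on `P`. -/
def Good {m : ℕ} (A : Fin m → Set P) (W : Field E P) : Prop :=
  ∃ ψ : Flow ℝ P, IsFlowOf W ψ ∧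
    (∀ i, Invariant ψ (A i) ∧ Transitive ψ (A i)) ∧
    (∀ p, ∃ i, OmegaLim ψ p ⊆ A i) ∧
    (∀ p, Nonwandering ψ p → ∃ i, p ∈ A i) ∧
    ∀ [MeasurableSpace P] (μ : Measure P), FiniteAttractors μ ψ

/-- Let `P` be a closed manifold, `X` a `C^∞` vector field on `P` with flow `φ`, and `h` a `C^∞`
function with `dh(X) ≥ 0` (for instance a first integral of `X`). Suppose that the points whose whole
orbit consists of critical points of `h` are contained in finitely many pairwise disjoint closed
sets `A 0, …, A (m - 1)` of critical points of `h`, invariant and transitive under `φ` (for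
instance, that those points form finitely many zeros and periodic orbits of `X`). Then there is a
`C^∞` vector field `Y` such that for each `ε > 0`, for the flow of `X + ε Y` the sets `A i` are
invariant and transitive, every `ω`-limit set is contained in one of them, every nonwandering point
lies in one of them, and finitely many attractors cover `P`, for every measure on `P`. So `X` is in
the closure of the set of these fields, for every topology for which the `C^∞` fields form a
topological vector space (for instance the `C^r` topology). -/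
theorem result [T2Space P] [CompactSpace P]
    (X : SmoothFields E P) (φ : Flow ℝ P) (hφ : IsFlowOf X.1 φ)
    (h : P → ℝ) (hh : ContMDiff 𝓘(ℝ, E) 𝓘(ℝ, ℝ) ∞ h)
    (hm : ∀ x, (0 : ℝ) ≤ mfderiv 𝓘(ℝ, E) 𝓘(ℝ, ℝ) h x (X.1 x))
    (m : ℕ) (A : Fin m → Set P) (hcl : ∀ i, IsClosed (A i))
    (hd : ∀ i j, i ≠ j → Disjoint (A i) (A j)) (hcr : ∀ i, ∀ x ∈ A i, Critical (E := E) h x)
    (hinv : ∀ i, Invariant φ (A i)) (htr : ∀ i, Transitive φ (A i))
    (hcov : ∀ x, (∀ t, Critical (E := E) h (φ t x)) → ∃ i, x ∈ A i) :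
    (∃ Y : SmoothFields E P, ∀ ε : ℝ, 0 < ε → Good A (X + ε • Y).1) ∧
    ∀ _ : TopologicalSpace (SmoothFields E P), ContinuousAdd (SmoothFields E P) →
      ContinuousSMul ℝ (SmoothFields E P) → X ∈ closure {W : SmoothFields E P | Good A W.1} := by
  have main : ∃ Y : SmoothFields E P, ∀ ε : ℝ, 0 < ε → Good A (X + ε • Y).1 := by
    obtain ⟨n, ⟨ι⟩⟩ := X84.Fl.exists_imm (E := E) (P := P)
    refine ⟨⟨ι.grad h, ι.smooth_grad hh⟩, ?_⟩
    intro ε hε
    have hs := X84.Fl.pert_smooth ι X.2 hh ε
    obtain ⟨ψ, hψ⟩ := X84.Fl.exists_flow hs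
    obtain ⟨h1, h2, h3, h4⟩ := X84.Fl.mono_main ι X.2 hφ hh hm A hcl hd hcr hinv htr
      (fun y hy => mem_iUnion.2 (hcov y hy)) hε hψ
    refine ⟨ψ, hψ, ?_, h3, fun p hp => mem_iUnion.1 (h2 p hp), fun μ => h4 μ⟩
    intro i
    constructor
    · intro t
      calc ψ t '' A i = φ t '' A i := image_congr fun x hx => h1 i x hx t
        _ = A i := hinv i t
    · obtain ⟨x, hx, h5⟩ := htr i
      refine ⟨x, hx, ?_⟩
      have : (fun t => ψ t x) = fun t => φ t x := funext fun t => h1 i x hx t
      rw [this]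
      exact h5
  refine ⟨main, ?_⟩
  intro τ hadd hsmul
  obtain ⟨Y, hY⟩ := main
  refine X84.Fl.closure_of_small (S := Unit) X (fun _ => Y) _ τ hadd hsmul ?_
  intro δ hδ
  refine ⟨fun _ => δ / 2, fun _ => ?_, ?_⟩
  · rw [abs_of_pos (by linarith)]; linarith
  · rw [Finset.univ_unique, Finset.sum_singleton]
    exact hY _ (by linarith)

end Pool.Agent.Results.MP_3a2b62_an.MonotoneFields
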