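import Pool.Agent.X84.Pm.Main

/-!
# Finitely many attractors near diffeomorphisms of finite order

Definitions: `Symmetry`, `CompactAbelian` in `Pool/Agent/X84/Pm/Defs.lean`, `Orb` in
`Pool/Agent/X84/Pm/Main.lean`, `TorusAction`, `Crit` in `Pool/Agent/X84/Tor/Defs.lean`,
`omegaLim`, `FiniteAttractors` in `Pool/Agent/H728R2/FA/Defs.lean`, `IsHyperbolicPer` in
`Pool/Agent/Y504/CO/Rob.lean`, `FiniteNoCycle` in `Pool/Agent/TH80/OMS/CycDefs.lean`, the topology
of `Diff^r` in `Pool/Agent/H718R2/G0.lean`.
-/

set_option autoImplicit false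

open scoped Manifold ContDiff Topology

universe u

namespace Pool.Agent.Results.MP_3a2b62_an.PeriodicMaps

open Pool.Agent.H718R2.G Pool.Agent.TH80.OMS Pool.Agent.Y504.CO Pool.Agent.X84.Pm
open Pool.Agent.X84.Tor (Crit)
open MeasureTheory Pool.Agent.H728R2.FA

variable {n : ℕ} {N : Type u} [TopologicalSpace N] [ChartedSpace (V n) N] {r : ℕ∞}

/-- Every neighbourhood of `F` in the `C^r` topology contains a diffeomorphism with the property
`S`. -/
def LimitOf [IsManifold (𝓡 n) ∞ N] (S : DiffM n N r → Prop) (F : DiffM n N r) : Prop :=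
  ∀ U : Set (DiffM n N r), IsOpen[strongTop n N r] U → F ∈ U → ∃ G ∈ U, S G

/-- `h ∘ F ≥ h` for some `C^∞` function `h`, and `F` coincides with a symmetry of `h` (an element of
a compact abelian group of `C^∞` diffeomorphisms preserving `h`) on a neighbourhood of the set of
the critical points `x` of `h` such that `F x` is critical and `h (F x) = h x`. -/
def LocallySymmetric (F : N → N) : Prop :=
  ∃ h : N → ℝ, ContMDiff (𝓡 n) 𝓘(ℝ, ℝ) ∞ h ∧ (∀ x, h x ≤ h (F x)) ∧
    ∃ S : N → N, Symmetry (V n) h S ∧ ∃ W : Set N, IsOpen W ∧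
      (∀ x, Crit (V n) h x → Crit (V n) h (F x) → h (F x) = h x → x ∈ W) ∧ ∀ x ∈ W, F x = S x

/-- The nonwandering set of `G` is finite and consists of hyperbolic periodic points, there are no
cycles, every `ω`-limit set is contained in a periodic orbit, and `G` has finitely many attractors
covering `N` up to a null set, for every measure on `N`. -/
def Good (G : DiffM n N r) : Prop :=
  FiniteNoCycle G ∧ (∀ p ∈ Omega G, IsHyperbolicPer n G p) ∧
    (∀ x, ∃ p ∈ Omega G, omegaLim G x ⊆ Orb G p) ∧
    ∀ (_ : MeasurableSpace N) (μ : Measure N), FiniteAttractors μ G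

/-- Let `N` be a closed manifold, `1 ≤ r ≤ ∞`, and let `F` be in the closure in `Diff^r(N)` of the
set of locally symmetric maps (for instance of the set of all elements of compact abelian groups of
`C^∞` diffeomorphisms, such as all diffeomorphisms of finite order and the elements of all circle
actions and their conjugates). Then every neighbourhood of `F` in the `C^r` topology contains `G`
such that the nonwandering set of `G` is finite and consists of hyperbolic periodic points, every
`ω`-limit set is contained in a periodic orbit, and `G` has finitely many attractors covering `N` up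
to a null set, for every measure on `N`. -/
theorem result (n : ℕ) (N : Type u) [TopologicalSpace N] [T2Space N] [CompactSpace N]
    [ChartedSpace (V n) N] [IsManifold (𝓡 n) ∞ N] (r : ℕ∞) (hr : 1 ≤ r) :
    (∀ F : DiffM n N r, LimitOf (fun G => LocallySymmetric (n := n) G) F → LimitOf Good F) ∧
    ∀ F : DiffM n N r, CompactAbelian (V n) F → LocallySymmetric (n := n) F := by
  refine ⟨fun F hF U hU hFU => ?_, fun F hF => ⟨fun _ => 0, contMDiff_const, fun _ => le_rfl, F, hF,
    Set.univ, isOpen_univ, fun _ _ _ _ => Set.mem_univ _, fun _ _ => rfl⟩⟩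
  obtain ⟨G, hGU, h, hh, hm, S, hS, W, hW, hWc, hWS⟩ := hF U hU hFU
  obtain ⟨G', h1, -, h2, h3, h4, h5⟩ := axiomA_sym hr (mono_of_near hh hm hS hW hWc hWS) U hU hGU
  exact ⟨G', h1, h3, h2, h4, h5⟩

end Pool.Agent.Results.MP_3a2b62_an.PeriodicMaps
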